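import Pool.Agent.DB.A.Main
import Pool.Agent.DB.B.Final
import Pool.Agent.DB.D.Lim
import Pool.Agent.DB.I.Nerve

/-!
# Project DB, part C: a `G`-like limit gives a combinatorial factorisation
-/

namespace Pool.Agent.DB

open Set

/-- the nerve graph of a cover -/
def nerveGraph {X : Type} {n : ℕ} (U : Fin n → Set X) :
    SimpleGraph {i : Fin n // (U i).Nonempty} where
  Adj i j := i ≠ j ∧ (U i.1 ∩ U j.1).Nonempty
  symm := ⟨fun _ _ h => ⟨h.1.symm, by rw [inter_comm]; exact h.2⟩⟩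
  loopless := ⟨fun _ h => h.1 rfl⟩

theorem exists_adj_of_walk {W : Type} {H : SimpleGraph W} {a b : W} (hab : a ≠ b)
    (q : H.Walk a b) : ∃ c, H.Adj a c := by
  cases q with
  | nil => exact absurd rfl hab
  | cons h _ => exact ⟨_, h⟩

theorem C_main (M : Model) (x : ℕ → M.V) (hx : Good M x) {V : Type} [Fintype V] [DecidableEq V]
    (G : SimpleGraph V) (hG : G.IsTree) (hlike : CoverLike (M.Lim x) (real G)) :
    M.B.card ≤ bnum G ∧ (∀ y, M.B = {y} → M.d y - 2 ≤ beta G) := by
  classical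
  set b : ℝ := (bnum G : ℝ) with hb
  have hb0 : 0 ≤ b := Nat.cast_nonneg _
  set η : ℝ := 1 / (200 * (b + 1)) with hη
  have hη0 : 0 < η := by positivity
  -- the cover by small preimages of the coordinate `0`
  let O : real M.G → Set (M.Lim x) := fun p => {z | dist (z.1 0) p.1 < η / 2}
  have hO : ∀ p, IsOpen (O p) := by
    intro p
    have hc : Continuous (fun z : M.Lim x => dist (z.1 0) p.1) :=
      ((continuous_apply 0).comp continuous_subtype_val).dist continuous_const
    exact isOpen_lt hc continuous_const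
  have hOc : ⋃ p, O p = univ := by
    refine eq_univ_of_forall (fun z => mem_iUnion.2 ⟨⟨z.1 0, (z.2 0).1⟩, ?_⟩)
    change dist (z.1 0) (z.1 0) < η / 2
    rw [dist_self]
    positivity
  obtain ⟨n, U, hUo, hUc, hUO, K, -, -, hK⟩ := hlike _ O hO hOc
  have hconn : ConnectedSpace (M.Lim x) :=
    isConnected_iff_connectedSpace.1 (lim_connected M x hx)
  obtain ⟨hA₀, hbA, hβA⟩ := nerve_tree (M.Lim x) n U hUo hUc G hG K hK (nerveGraph U)
    (fun i j => Iff.rfl)
  obtain ⟨k, δ, hδ, hk⟩ := lim_small M x hx (Fin n) U hUo hUc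
  -- choice of a link for every point
  have hj : ∀ p ∈ real M.G, ∃ j : {i : Fin n // (U i).Nonempty}, ∀ z : M.Lim x,
      dist (z.1 k) p < δ → z ∈ U j.1 := by
    intro p hp
    obtain ⟨j, hj⟩ := hk p hp
    obtain ⟨z, hz, hzk⟩ := lim_proj M x hx k p hp
    exact ⟨⟨j, ⟨⟨z, hz⟩, hj ⟨z, hz⟩ (by simp [hzk, hδ])⟩⟩, hj⟩
  obtain ⟨n', hn'⟩ := exists_nat_gt (max (1 / δ) (1 / η))
  have hn1 : 1 / δ < n' := lt_of_le_of_lt (le_max_left _ _) hn'
  have hn2 : 1 / η < n' := lt_of_le_of_lt (le_max_right _ _) hn'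
  have hn0 : 0 < (n' : ℝ) := lt_trans (by positivity) hn1
  have hnn : 0 < n' := by exact_mod_cast hn0
  obtain ⟨W, fW, H, lab, P, hH, hWn, hP, hfac⟩ := A_main M ((List.range k).map x) (by
    intro y hy
    obtain ⟨i, -, rfl⟩ := List.mem_map.1 hy
    exact hx.1 i)
  obtain ⟨w₀, w₁, hw₀₁⟩ := hWn.exists_pair_ne
  have hne : ∃ p, p ∈ real M.G := by
    obtain ⟨w', hw'⟩ := exists_adj_of_walk hw₀₁ (hH.preconnected w₀ w₁).some
    exact ⟨_, (hP _ _ hw' 0 le_rfl zero_le_one).1⟩
  obtain ⟨p₀, hp₀⟩ := hne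
  have : Nonempty {i : Fin n // (U i).Nonempty} := ⟨(hj p₀ hp₀).choose⟩
  choose! j hj using hj
  let i : W → W → ℕ → {i : Fin n // (U i).Nonempty} := fun w w' t =>
    j ((1 - (t : ℝ) / n') • P w + ((t : ℝ) / n') • P w')
  have hfr : ∀ t : ℕ, t ≤ n' → 0 ≤ (t : ℝ) / n' ∧ (t : ℝ) / n' ≤ 1 := by
    intro t ht
    have : (t : ℝ) ≤ n' := by exact_mod_cast ht
    exact ⟨by positivity, (div_le_one hn0).2 this⟩
  have hmem : ∀ w w', H.Adj w w' → ∀ t : ℕ, t ≤ n' →
      (1 - (t : ℝ) / n') • P w + ((t : ℝ) / n') • P w' ∈ real M.G := by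
    intro w w' hw t ht
    exact (hP w w' hw _ (hfr t ht).1 (hfr t ht).2).1
  have hPr : ∀ w w', H.Adj w w' → P w ∈ real M.G ∧ P w' ∈ real M.G := by
    intro w w' hw
    have h1 := (hP w w' hw 0 le_rfl zero_le_one).1
    have h2 := (hP w w' hw 1 zero_le_one le_rfl).1
    simp only [sub_zero, one_smul, zero_smul, add_zero, sub_self, zero_add] at h1 h2
    exact ⟨h1, h2⟩
  obtain ⟨S, fS, A, g, h, hA, hg, hgh, hb1, hβ1⟩ := B_main M.G M.tree H hH lab hWn
    (nerveGraph U) hA₀ n' hnn η hη0 (by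
      have h1 : (bnum (nerveGraph U) : ℝ) ≤ b := by
        rw [hb]
        exact_mod_cast hbA
      rw [hη, mul_one_div, div_le_one (by positivity)]
      nlinarith) (by
      rw [div_lt_iff₀ hη0] at hn2
      linarith) i (fun w => j (P w))
    (by
      intro w w' _
      simp [i])
    (by
      intro w w' _ t ht
      have h1 : ((n' - t : ℕ) : ℝ) / n' = 1 - t / n' := by
        rw [Nat.cast_sub ht]
        field_simp
      simp only [i]
      rw [h1]
      congr 1
      rw [add_comm]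
      congr 2
      ring)
    (by
      intro w w' hw t ht
      rcases eq_or_ne (i w w' t) (i w w' (t + 1)) with heq | hne
      · exact Or.inl heq
      right
      refine ⟨hne, ?_⟩
      have hm1 := hmem w w' hw t ht.le
      have hm2 := hmem w w' hw (t + 1) ht
      obtain ⟨z, hz, hzk⟩ := lim_proj M x hx k _ hm2
      refine ⟨⟨z, hz⟩, ?_, ?_⟩
      · apply hj _ hm1
        simp only [hzk]
        have hle : dist ((1 - ((t + 1 : ℕ) : ℝ) / n') • P w + (((t + 1 : ℕ) : ℝ) / n') • P w')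
            ((1 - (t : ℝ) / n') • P w + ((t : ℝ) / n') • P w') ≤ 1 / n' := by
          rw [dist_pi_le_iff (by positivity)]
          intro v
          rw [Real.dist_eq]
          simp only [Pi.add_apply, Pi.smul_apply, smul_eq_mul]
          obtain ⟨hr1, hr2⟩ := hPr w w' hw
          have a1 := real_nonneg hr1 v
          have a2 := real_le_one hr1 v
          have a3 := real_nonneg hr2 v
          have a4 := real_le_one hr2 v
          have hcast : (((t + 1 : ℕ) : ℝ)) / n' = t / n' + 1 / n' := by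
            push_cast
            ring
          rw [hcast]
          have : (1 - ((t : ℝ) / n' + 1 / n')) * P w v + ((t : ℝ) / n' + 1 / n') * P w' v -
              ((1 - (t : ℝ) / n') * P w v + (t : ℝ) / n' * P w' v) =
              (1 / n') * (P w' v - P w v) := by ring
          rw [this, abs_mul, abs_of_pos (by positivity : (0 : ℝ) < 1 / n')]
          have : |P w' v - P w v| ≤ 1 := abs_le.2 ⟨by linarith, by linarith⟩
          nlinarith [(by positivity : (0 : ℝ) < 1 / n')]
        refine lt_of_le_of_lt hle ?_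
        rw [div_lt_iff₀ hδ] at hn1
        rw [div_lt_iff₀ hn0]
        linarith
      · apply hj _ hm2
        simp [hzk, hδ])
    (by
      intro w w' z z' hw hz t t' ht ht' heq
      have hm1 := hmem w w' hw t ht
      have hm2 := hmem z z' hz t' ht'
      obtain ⟨y1, hy1, hk1⟩ := lim_proj M x hx k _ hm1
      obtain ⟨y2, hy2, hk2⟩ := lim_proj M x hx k _ hm2
      have e1 : (⟨y1, hy1⟩ : M.Lim x) ∈ U (i w w' t).1 := hj _ hm1 ⟨y1, hy1⟩ (by simp [hk1, hδ])
      have e2 : (⟨y2, hy2⟩ : M.Lim x) ∈ U (i w w' t).1 := by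
        rw [heq]
        exact hj _ hm2 ⟨y2, hy2⟩ (by simp [hk2, hδ])
      obtain ⟨o, ho⟩ := hUO (i w w' t).1
      have d1 : dist (y1 0) o.1 < η / 2 := ho e1
      have d2 : dist (y2 0) o.1 < η / 2 := ho e2
      have f1 := lim_F M x y1 hy1 k
      have f2 := lim_F M x y2 hy2 k
      rw [hk1, (hP w w' hw _ (hfr t ht).1 (hfr t ht).2).2] at f1
      rw [hk2, (hP z z' hz _ (hfr t' ht').1 (hfr t' ht').2).2] at f2
      rw [← f1, ← f2]
      calc dist (y1 0) (y2 0) ≤ dist (y1 0) o.1 + dist (y2 0) o.1 := dist_triangle_right _ _ _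
        _ ≤ η := by linarith)
  obtain ⟨r1, r2⟩ := hfac S fS A g h hA hg hgh
  exact ⟨r1.trans (hb1.trans hbA), fun y hy => (r2 y hy).trans (hβ1.trans hβA)⟩

end Pool.Agent.DB
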