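import Pool.Agent.DB.Notions

/-!
# Project DB (MP_db294d_gt), definitions

Finite trees, geometric realisations, the twist maps `M.f x`, inverse limits, nerves.
-/

namespace Pool.Agent.DB

open Set

universe u v

/-- vertex `a` of the standard simplex -/
noncomputable def ev {V : Type} [DecidableEq V] (a : V) : V → ℝ := Pi.single a 1

/-- geometric realisation of a graph: union of the segments `[a, b]`, `a = b` or `a` adjacent
to `b`, in `V → ℝ` (barycentric coordinates) -/
def real {V : Type} [DecidableEq V] (G : SimpleGraph V) : Set (V → ℝ) :=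
  {p | ∃ a b : V, (a = b ∨ G.Adj a b) ∧ ∃ t : ℝ, 0 ≤ t ∧ t ≤ 1 ∧ p = (1 - t) • ev a + t • ev b}

/-- degree of a vertex (number of neighbours) -/
noncomputable def deg {V : Type} (G : SimpleGraph V) (v : V) : ℕ := (G.neighborSet v).ncard

/-- number of branch vertices (degree at least three) -/
noncomputable def bnum {V : Type} (G : SimpleGraph V) : ℕ := {v : V | 3 ≤ deg G v}.ncard

/-- total excess: sum of `deg v - 2` over the branch vertices (number of leaves minus two for a
tree with an edge) -/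
noncomputable def beta {V : Type} [Fintype V] (G : SimpleGraph V) : ℕ := ∑ v : V, (deg G v - 2)

/-- A coarse tree: a finite tree graph `G`, its set `B` of branch vertices, and for every branch
vertex `x` its rays `ray x m j` (direction `m` modulo `d x`, distance `j ≤ L`); all rays have the
same large length `L` and end at another branch vertex or at a leaf. -/
structure Model where
  V : Type
  fV : Fintype V
  dV : DecidableEq V
  G : SimpleGraph V
  tree : G.IsTree
  L : ℕ
  B : Finset V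
  d : V → ℕ
  ray : V → ℕ → ℕ → V
  ne : B.Nonempty
  three_le : ∀ x ∈ B, 3 ≤ d x
  long : ∀ x ∈ B, (d x ^ 2 + d x + 1) * d x ≤ L
  ray_zero : ∀ x ∈ B, ∀ m, ray x m 0 = x
  ray_adj : ∀ x ∈ B, ∀ m j, j < L → G.Adj (ray x m j) (ray x m (j + 1))
  ray_per : ∀ x ∈ B, ∀ m m' j, m ≡ m' [MOD d x] → ray x m j = ray x m' j
  ray_inj : ∀ x ∈ B, ∀ m j m' j', j ≤ L → j' ≤ L → ray x m j = ray x m' j' →
      j = j' ∧ (j = 0 ∨ m ≡ m' [MOD d x])
  nbr : ∀ x ∈ B, ∀ v, G.Adj x v → ∃ m, m < d x ∧ v = ray x m 1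
  ray_int : ∀ x ∈ B, ∀ m j, 0 < j → j < L → ∀ v, G.Adj (ray x m j) v →
      v = ray x m (j - 1) ∨ v = ray x m (j + 1)
  ray_end : ∀ x ∈ B, ∀ m,
      (ray x m L ∈ B ∧ ∃ m', ∀ j, j ≤ L → ray (ray x m L) m' j = ray x m (L - j)) ∨
      (∀ v, G.Adj (ray x m L) v → v = ray x m (L - 1))
  cover : ∀ v, ∃ x ∈ B, ∃ m j, j ≤ L ∧ v = ray x m j

attribute [instance] Model.fV Model.dV

/-- the point at height `h` (`0 ≤ h ≤ N`) on the edge path `w 0, w 1, ..., w N` -/
noncomputable def pl {V : Type} [DecidableEq V] (w : ℕ → V) (N : ℕ) (h : ℝ) : V → ℝ :=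
  ∑ j ∈ Finset.range (N + 1), (max 0 (1 - |h - j|)) • ev (w j)

namespace Model

variable (M : Model)

/-- number of full levels before the exits -/
def K (x : M.V) : ℕ := M.d x ^ 2

/-- length of excursion `m` of arm `E` (`K + 1 ≤ E ≤ K + d`) at `x` -/
def code (x : M.V) (E m : ℕ) : ℕ :=
  if m + 1 = E then M.L else m * M.d x + (M.K x + M.d x - E) + M.d x

/-- height at time `u` of the excursion `m` of arm `E` (`m < E`), or of the exit (`m = E`) -/
noncomputable def hgt (x : M.V) (E m : ℕ) (u : ℝ) : ℝ :=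
  if m < E then (M.code x E m : ℝ) * max 0 (1 - |2 * (u - m) - 1|) else max 0 (u - E)

/-- the walk of arm `E`, parametrised by `s ∈ [0,1]`: excursion `m` in the time
`(E+1) s ∈ [m, m+1]`, `m < E`, exit in the time `[E, E+1]` -/
noncomputable def armPt (x : M.V) (E : ℕ) (s : ℝ) : M.V → ℝ :=
  ev x + ∑ m ∈ Finset.range (E + 1),
    (pl (M.ray x m) M.L (M.hgt x E m (((E : ℝ) + 1) * s)) - ev x)

/-- the twist map at the branch vertex `x` -/
noncomputable def f (x : M.V) (p : M.V → ℝ) : M.V → ℝ :=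
  if p x = 0 then p else
    ev x + ∑ E ∈ Finset.Icc (M.K x + 1) (M.K x + M.d x), (M.armPt x E (p (M.ray x E 1)) - ev x)

/-- composition of twist maps: `F [x₁, ..., xₙ] = f x₁ ∘ ... ∘ f xₙ` -/
noncomputable def F : List M.V → (M.V → ℝ) → (M.V → ℝ)
  | [] => id
  | x :: l => M.f x ∘ F l

/-- the inverse limit of the twist maps `f (x 0), f (x 1), ...` -/
def Lim (x : ℕ → M.V) : Set (ℕ → M.V → ℝ) :=
  {z | ∀ k, z k ∈ real M.G ∧ z k = M.f (x k) (z (k + 1))}

end Model

/-- a sequence of branch vertices in which every branch vertex occurs infinitely often -/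
def Good (M : Model) (x : ℕ → M.V) : Prop :=
  (∀ k, x k ∈ M.B) ∧ ∀ y ∈ M.B, ∀ n, ∃ k, n ≤ k ∧ x k = y

/-- topological form of `T`-likeness: every open cover has a finite open refinement whose nerve
is homeomorphic to a subcontinuum of `T` -/
def CoverLike (X : Type u) [TopologicalSpace X] (T : Type v) [TopologicalSpace T] : Prop :=
  ∀ (ι : Type) (O : ι → Set X), (∀ j, IsOpen (O j)) → (⋃ j, O j = univ) →
    ∃ (n : ℕ) (U : Fin n → Set X), (∀ i, IsOpen (U i)) ∧ (⋃ i, U i = univ) ∧
      (∀ i, ∃ j, U i ⊆ O j) ∧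
      ∃ K : Set T, IsClosed K ∧ IsConnected K ∧ Nonempty (nerveReal U ≃ₜ K)

/-- a (non-degenerate) tree: a space homeomorphic to the realisation of a finite tree graph with
at least two vertices -/
def TreeSpace (T : Type u) [TopologicalSpace T] : Prop :=
  ∃ (V : Type) (_ : Fintype V) (_ : DecidableEq V) (G : SimpleGraph V),
    G.IsTree ∧ Nontrivial V ∧ Nonempty (T ≃ₜ real G)

/-- the star with `d` leaves: vertex `0` adjacent to `1, ..., d` -/
def starG (d : ℕ) : SimpleGraph (Fin (d + 1)) where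
  Adj a b := a ≠ b ∧ (a = 0 ∨ b = 0)
  symm := ⟨fun _ _ h => ⟨h.1.symm, h.2.symm⟩⟩
  loopless := ⟨fun _ h => h.1 rfl⟩

end Pool.Agent.DB
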