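import Pool.Agent.DB.Defs

/-!
# Project DB: transfer of the notions along homeomorphisms
-/

namespace Pool.Agent.DB

open Set

universe u v w u' v'

theorem nerveReal_preimage {X : Type u} {Y : Type v} (h : X ≃ Y) {n : ℕ} (U : Fin n → Set X) :
    nerveReal (fun i => h.symm ⁻¹' (U i)) = nerveReal U := by
  ext p
  simp only [nerveReal, mem_ofPred_eq]
  refine and_congr_right (fun _ => and_congr_right (fun _ => ?_))
  constructor
  · rintro ⟨y, hy⟩
    refine ⟨h.symm y, ?_⟩
    simp only [mem_iInter] at hy ⊢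
    exact fun i hi => hy i hi
  · rintro ⟨x, hx⟩
    refine ⟨h x, ?_⟩
    simp only [mem_iInter] at hx ⊢
    intro i hi
    simpa using hx i hi

theorem CoverLike.of_homeo {X : Type u} {Y : Type v} [TopologicalSpace X] [TopologicalSpace Y]
    {T : Type w} [TopologicalSpace T] (h : X ≃ₜ Y) (hX : CoverLike X T) : CoverLike Y T := by
  intro ι O hO hOc
  obtain ⟨n, U, hU, hUc, hUO, K, hK1, hK2, ⟨e⟩⟩ := hX ι (fun j => h ⁻¹' (O j))
    (fun j => (hO j).preimage h.continuous) (by
      rw [← preimage_iUnion, hOc, preimage_univ])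
  refine ⟨n, fun i => h.symm ⁻¹' (U i), fun i => (hU i).preimage h.symm.continuous, ?_, ?_,
    K, hK1, hK2, ?_⟩
  · rw [← preimage_iUnion, hUc, preimage_univ]
  · intro i
    obtain ⟨j, hj⟩ := hUO i
    refine ⟨j, fun y hy => ?_⟩
    have := hj hy
    simpa using this
  · have := nerveReal_preimage h.toEquiv U
    exact ⟨(Homeomorph.setCongr this).trans e⟩

theorem CoverLike.target {X : Type u} [TopologicalSpace X]
    {T : Type v} [TopologicalSpace T] {T' : Type w} [TopologicalSpace T'] (h : T ≃ₜ T')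
    (hX : CoverLike X T) : CoverLike X T' := by
  intro ι O hO hOc
  obtain ⟨n, U, hU, hUc, hUO, K, hK1, hK2, ⟨e⟩⟩ := hX ι O hO hOc
  exact ⟨n, U, hU, hUc, hUO, h '' K, h.isClosedMap K hK1, hK2.image h h.continuous.continuousOn,
    ⟨e.trans (h.image K)⟩⟩

theorem CoverLike.tlike {X : Type} [PseudoMetricSpace X] {T : Type w} [TopologicalSpace T]
    (hX : CoverLike X T) : TLike X T := by
  intro ε hε
  obtain ⟨n, U, hU, hUc, hUO, hK⟩ := hX X (fun x => Metric.ball x (ε / 3))
    (fun x => Metric.isOpen_ball)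
    (eq_univ_of_forall (fun x => mem_iUnion.2 ⟨x, Metric.mem_ball_self (by positivity)⟩))
  refine ⟨n, U, hU, hUc, fun i => ?_, hK⟩
  obtain ⟨x, hx⟩ := hUO i
  refine ⟨Metric.isBounded_ball.subset hx, ?_⟩
  calc Metric.diam (U i) ≤ Metric.diam (Metric.ball x (ε / 3)) :=
        Metric.diam_mono hx Metric.isBounded_ball
    _ ≤ 2 * (ε / 3) := Metric.diam_ball (by positivity)
    _ < ε := by linarith

theorem TLike.coverLike {X : Type u} [PseudoMetricSpace X] [CompactSpace X] [Nonempty X]
    {T : Type w} [TopologicalSpace T] (hX : TLike X T) : CoverLike X T := by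
  intro ι O hO hOc
  obtain ⟨δ, hδ, hδO⟩ := lebesgue_number_lemma_of_metric (s := (univ : Set X)) isCompact_univ hO
    (by rw [hOc])
  obtain ⟨n, U, hU, hUc, hUd, hK⟩ := hX δ hδ
  refine ⟨n, U, hU, hUc, fun i => ?_, hK⟩
  rcases (U i).eq_empty_or_nonempty with he | ⟨x, hx⟩
  · obtain ⟨x⟩ := ‹Nonempty X›
    obtain ⟨j, -⟩ := hδO x (mem_univ x)
    exact ⟨j, by rw [he]; exact empty_subset _⟩
  · obtain ⟨j, hj⟩ := hδO x (mem_univ x)
    refine ⟨j, fun y hy => hj ?_⟩
    exact lt_of_le_of_lt (Metric.dist_le_diam_of_mem (hUd i).1 hy hx) (hUd i).2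

theorem Indecomp.of_homeo {X : Type u} {Y : Type v} [TopologicalSpace X] [TopologicalSpace Y]
    (h : X ≃ₜ Y) (hX : Indecomp X) : Indecomp Y := by
  intro A B hA hA' hB hB' hAB
  have key : ∀ C : Set Y, h.symm '' C = univ → C = univ := by
    intro C hC
    have := congrArg (h '' ·) hC
    simp only [image_image, Homeomorph.apply_symm_apply, image_id', image_univ,
      h.range_coe] at this
    exact this
  rcases hX (h.symm '' A) (h.symm '' B) (h.symm.isClosedMap A hA)
    (hA'.image _ h.symm.continuous.continuousOn) (h.symm.isClosedMap B hB)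
    (hB'.image _ h.symm.continuous.continuousOn)
    (by rw [← image_union, hAB, image_univ, h.symm.range_coe]) with h1 | h1
  · exact Or.inl (key A h1)
  · exact Or.inr (key B h1)

theorem ArcCont.of_homeo {X : Type u} {Y : Type v} [TopologicalSpace X] [TopologicalSpace Y]
    (h : X ≃ₜ Y) (hX : ArcCont X) : ArcCont Y := by
  intro A hA hA' hAn hAu
  obtain ⟨e⟩ := hX (h.symm '' A) (h.symm.isClosedMap A hA)
    (hA'.image _ h.symm.continuous.continuousOn)
    (hAn.image h.symm.injective) (by
      intro hC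
      apply hAu
      have := congrArg (h '' ·) hC
      simp only [image_image, Homeomorph.apply_symm_apply, image_id', image_univ,
        h.range_coe] at this
      exact this)
  exact ⟨(h.symm.image A).trans e⟩

theorem MonotoneImage.of_homeo {T₂ : Type u} [TopologicalSpace T₂] {T₁ : Type v}
    [TopologicalSpace T₁] {S₂ : Type u'} [TopologicalSpace S₂] {S₁ : Type v'}
    [TopologicalSpace S₁] (h₂ : T₂ ≃ₜ S₂) (h₁ : T₁ ≃ₜ S₁) (h : MonotoneImage T₂ T₁) :
    MonotoneImage S₂ S₁ := by
  obtain ⟨f, hf, hfs, hfc⟩ := h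
  refine ⟨fun y => h₁ (f (h₂.symm y)), by fun_prop,
    h₁.surjective.comp (hfs.comp h₂.symm.surjective), ?_⟩
  intro y
  have : (fun y => h₁ (f (h₂.symm y))) ⁻¹' {y} = h₂ '' (f ⁻¹' {h₁.symm y}) := by
    ext z
    simp only [mem_preimage, mem_singleton_iff, mem_image]
    constructor
    · intro hz
      exact ⟨h₂.symm z, by rw [← hz, Homeomorph.symm_apply_apply], by simp⟩
    · rintro ⟨t, ht, rfl⟩
      rw [Homeomorph.symm_apply_apply, ht, Homeomorph.apply_symm_apply]
  rw [this]
  exact (hfc _).image _ h₂.continuous.continuousOn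

end Pool.Agent.DB
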