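import Pool.Agent.DB.C
import Pool.Agent.DB.Transfer
import Pool.Agent.DB.E.Main
import Pool.Agent.DB.F.Main
import Pool.Agent.DB.G.MainG
import Pool.Agent.DB.I.Model
import Pool.Agent.DB.I.Order
import Pool.Agent.DB.I.StarO
import Pool.Agent.DB.J.Final

/-!
# Project DB: final assembly
-/

namespace Pool.Agent.DB

open Set

universe u v

theorem exists_goodSeq (M : Model) : ∃ x : ℕ → M.V, Good M x := by
  classical
  obtain ⟨y₀, hy₀⟩ := M.ne
  have hc : 0 < M.B.card := Finset.card_pos.2 ⟨y₀, hy₀⟩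
  let e := M.B.equivFin
  refine ⟨fun k => (e.symm ⟨k % M.B.card, Nat.mod_lt _ hc⟩).1, fun k => ?_, fun y hy n => ?_⟩
  · exact (e.symm _).2
  · refine ⟨(e ⟨y, hy⟩).1 + M.B.card * n, ?_, ?_⟩
    · have : n ≤ M.B.card * n := Nat.le_mul_of_pos_left n hc
      omega
    · have h1 : ((e ⟨y, hy⟩).1 + M.B.card * n) % M.B.card = (e ⟨y, hy⟩).1 := by
        rw [Nat.add_mul_mod_self_left, Nat.mod_eq_of_lt (e ⟨y, hy⟩).2]
      have h2 : (⟨((e ⟨y, hy⟩).1 + M.B.card * n) % M.B.card, Nat.mod_lt _ hc⟩ : Fin M.B.card) =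
          e ⟨y, hy⟩ := Fin.ext h1
      change (e.symm ⟨((e ⟨y, hy⟩).1 + M.B.card * n) % M.B.card, Nat.mod_lt _ hc⟩).1 = y
      rw [h2, Equiv.symm_apply_apply]

/-- the limit is covered well by every tree onto which `real M.G` maps with small fibres -/
theorem lim_coverLike (M : Model) (x : ℕ → M.V) (hx : Good M x) {V : Type} [Fintype V]
    [DecidableEq V] (G : SimpleGraph V) (hG : G.IsTree)
    (hg : ∀ δ : ℝ, 0 < δ → ∃ g : real M.G → real G, Continuous g ∧ Function.Surjective g ∧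
      ∀ p q, g p = g q → dist p q < δ) : CoverLike (M.Lim x) (real G) := by
  intro ι O hO hOc
  obtain ⟨k, δ, hδ, hk⟩ := lim_small M x hx ι O hO hOc
  obtain ⟨g, hgc, hgs, hgf⟩ := hg δ hδ
  have : CompactSpace (M.Lim x) := isCompact_iff_compactSpace.1 (lim_compact M x hx)
  let pr : M.Lim x → real M.G := fun z => ⟨z.1 k, (z.2 k).1⟩
  have hpr : Continuous pr :=
    ((continuous_apply k).comp continuous_subtype_val).subtype_mk _
  have hprs : Function.Surjective pr := by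
    rintro ⟨p, hp⟩
    obtain ⟨z, hz, hzk⟩ := lim_proj M x hx k p hp
    exact ⟨⟨z, hz⟩, Subtype.ext hzk⟩
  obtain ⟨n, U, hU, hUc, hUO, ⟨e⟩⟩ := E_main (M.Lim x) G hG ι O hO (fun z => g (pr z))
    (hgc.comp hpr) (hgs.comp hprs) (by
      intro y
      obtain ⟨p, rfl⟩ := hgs y
      obtain ⟨j, hj⟩ := hk p.1 p.2
      refine ⟨j, fun z hz => hj z ?_⟩
      have := hgf (pr z) p hz
      exact this)
  have : ConnectedSpace (real G) := isConnected_iff_connectedSpace.1 (real_connected G hG.1)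
  exact ⟨n, U, hU, hUc, hUO, univ, isClosed_univ, isConnected_univ,
    ⟨e.trans (Homeomorph.Set.univ _).symm⟩⟩

/-- a homeomorphism composed with maps with small fibres -/
theorem small_fibres_homeo {X Y Z : Type} [MetricSpace X] [MetricSpace Y] [TopologicalSpace Z]
    [CompactSpace Y] (e : X ≃ₜ Y)
    (hg : ∀ δ : ℝ, 0 < δ → ∃ g : Y → Z, Continuous g ∧ Function.Surjective g ∧
      ∀ p q, g p = g q → dist p q < δ) :
    ∀ δ : ℝ, 0 < δ → ∃ g : X → Z, Continuous g ∧ Function.Surjective g ∧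
      ∀ p q, g p = g q → dist p q < δ := by
  intro δ hδ
  have huc : UniformContinuous e.symm := CompactSpace.uniformContinuous_of_continuous
    e.symm.continuous
  obtain ⟨δ', hδ', h⟩ := Metric.uniformContinuous_iff.1 huc δ hδ
  obtain ⟨g, hgc, hgs, hgf⟩ := hg δ' hδ'
  refine ⟨fun p => g (e p), hgc.comp e.continuous, hgs.comp e.surjective, fun p q hpq => ?_⟩
  have := h (hgf _ _ hpq)
  simpa using this

theorem main_core {V₁ V₂ : Type} [Fintype V₁] [DecidableEq V₁] [Fintype V₂] [DecidableEq V₂]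
    (G₁ : SimpleGraph V₁) (G₂ : SimpleGraph V₂) (h₁ : G₁.IsTree) (h₂ : G₂.IsTree)
    (hn₁ : Nontrivial V₁) (hn₂ : Nontrivial V₂)
    (h : MonotoneImage (real G₂) (real G₁)) (h' : ¬ MonotoneImage (real G₁) (real G₂)) :
    ∃ (M : Model) (x : ℕ → M.V), Good M x ∧ CoverLike (M.Lim x) (real G₂) ∧
      ¬ CoverLike (M.Lim x) (real G₁) := by
  have : CompactSpace (real G₂) := isCompact_iff_compactSpace.1 (real_compact G₂)
  rcases order_main G₁ G₂ h₁ h₂ hn₁ hn₂ h h' with hb | hβ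
  · obtain ⟨M, hM, ⟨e⟩⟩ := model_exists G₂ h₂ (by omega)
    obtain ⟨x, hx⟩ := exists_goodSeq M
    refine ⟨M, x, hx, lim_coverLike M x hx G₂ h₂ (small_fibres_homeo e ?_), fun hl => ?_⟩
    · intro δ hδ
      exact ⟨id, continuous_id, Function.surjective_id, fun p q hpq => by
        rw [id, id] at hpq
        rw [hpq, dist_self]
        exact hδ⟩
    · have := (C_main M x hx G₁ h₁ hl).1
      omega
  · have hd : 3 ≤ beta G₂ + 2 := by omega
    obtain ⟨M, y, hM, hMd, ⟨e⟩⟩ := model_star (beta G₂ + 2) hd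
    obtain ⟨x, hx⟩ := exists_goodSeq M
    have : CompactSpace (real (starG (beta G₂ + 2))) :=
      isCompact_iff_compactSpace.1 (real_compact _)
    refine ⟨M, x, hx, lim_coverLike M x hx G₂ h₂
      (small_fibres_homeo e (fun δ hδ => star_onto G₂ h₂ hn₂ δ hδ)), fun hl => ?_⟩
    have := (C_main M x hx G₁ h₁ hl).2 y hM
    omega

/-- the properties of the limit in the plane -/
theorem main (T₁ : Type u) (T₂ : Type v) [TopologicalSpace T₁] [TopologicalSpace T₂]
    (h₁ : TreeSpace T₁) (h₂ : TreeSpace T₂) (h : MonotoneImage T₂ T₁)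
    (h' : ¬ MonotoneImage T₁ T₂) :
    ∃ X : Set (EuclideanSpace ℝ (Fin 2)), IsCompact X ∧ IsConnected X ∧ X.Nontrivial ∧
      Indecomp X ∧ ArcCont X ∧ TLike X T₂ ∧ ¬ TLike X T₁ := by
  obtain ⟨V₁, fV₁, dV₁, G₁, hG₁, hn₁, ⟨e₁⟩⟩ := h₁
  obtain ⟨V₂, fV₂, dV₂, G₂, hG₂, hn₂, ⟨e₂⟩⟩ := h₂
  obtain ⟨M, x, hx, hl₂, hl₁⟩ := main_core G₁ G₂ hG₁ hG₂ hn₁ hn₂ (h.of_homeo e₂ e₁)
    (fun hc => h' (hc.of_homeo e₁.symm e₂.symm))
  obtain ⟨φ, hφc, hφi⟩ := G_main_of M x hx.1 (fun k => f_mapsTo M _ (hx.1 k))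
    (fun k => f_continuousOn M _ (hx.1 k))
  have hcomp := lim_compact M x hx
  have hconn := lim_connected M x hx
  have : CompactSpace (M.Lim x) := isCompact_iff_compactSpace.1 hcomp
  let ψ : M.Lim x → EuclideanSpace ℝ (Fin 2) := fun z => φ z.1
  have hψ : Continuous ψ := continuousOn_iff_continuous_domRestrict.1 hφc
  have hψi : Function.Injective ψ := fun a b hab => Subtype.ext (hφi a.2 b.2 hab)
  have hemb : Topology.IsEmbedding ψ := (hψ.isClosedEmbedding hψi).isEmbedding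
  let e : M.Lim x ≃ₜ range ψ := hemb.toHomeomorph
  have hXc : IsCompact (range ψ) := isCompact_range hψ
  have : ConnectedSpace (M.Lim x) := isConnected_iff_connectedSpace.1 hconn
  have : CompactSpace (range ψ) := isCompact_iff_compactSpace.1 hXc
  have : Nonempty (range ψ) := (range_nonempty ψ).to_subtype
  refine ⟨range ψ, hXc, isConnected_range hψ, ?_, ?_, ?_, ?_, ?_⟩
  · obtain ⟨y, hy⟩ := M.ne
    have hadj := M.ray_adj y hy 0 0 (by
      have := M.long y hy
      have h3 := M.three_le y hy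
      nlinarith [Nat.zero_le (M.d y ^ 2 + M.d y + 1)])
    have hm : ∀ v : M.V, ev v ∈ real M.G := fun v =>
      ⟨v, v, Or.inl rfl, 0, le_rfl, zero_le_one, by simp⟩
    obtain ⟨z1, hz1, hk1⟩ := lim_proj M x hx 0 _ (hm (M.ray y 0 0))
    obtain ⟨z2, hz2, hk2⟩ := lim_proj M x hx 0 _ (hm (M.ray y 0 (0 + 1)))
    refine ⟨ψ ⟨z1, hz1⟩, ⟨_, rfl⟩, ψ ⟨z2, hz2⟩, ⟨_, rfl⟩, fun hc => ?_⟩
    have := congrArg Subtype.val (hψi hc)
    simp only at this
    rw [this, hk2] at hk1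
    have h4 := congrFun hk1 (M.ray y 0 0)
    rw [ev_apply, ev_apply, if_pos rfl, if_neg hadj.ne] at h4
    exact zero_ne_one h4
  · exact (lim_indecomp M x hx).of_homeo e
  · exact (lim_arc M x hx).of_homeo e
  · exact ((hl₂.of_homeo e).target e₂.symm).tlike
  · intro hc
    exact hl₁ ((hc.coverLike.of_homeo e.symm).target e₁)

end Pool.Agent.DB
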