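import Mathlib

/-!
# Project DB (MP_db294d_gt): the notions of the problem file
-/

namespace Pool.Agent.DB

open Set

universe u v

/-- a (non-degenerate) tree: a non-degenerate connected Hausdorff space which is a finite union of
arcs, any two meeting in a finite set, and contains no simple closed curve -/
def TopTree (T : Type u) [TopologicalSpace T] : Prop :=
  T2Space T ∧ ConnectedSpace T ∧ Nontrivial T ∧
    (∃ (n : ℕ) (A : Fin n → Set T), (∀ i, Nonempty (A i ≃ₜ Icc (0 : ℝ) 1)) ∧
      (∀ i j, i ≠ j → (A i ∩ A j).Finite) ∧ (⋃ i, A i = univ)) ∧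
    ¬ ∃ f : Circle → T, Continuous f ∧ Function.Injective f

/-- the nerve of the cover `U`, as a simplicial complex in `Fin n → ℝ` (topological graph if its
dimension is one) -/
def nerveReal {X : Type u} {n : ℕ} (U : Fin n → Set X) : Set (Fin n → ℝ) :=
  {p | (∀ i, 0 ≤ p i) ∧ ∑ i, p i = 1 ∧ (⋂ i ∈ {i | p i ≠ 0}, U i).Nonempty}

/-- `X` is `T`-like: for every `ε > 0` there is a finite open cover of mesh less than `ε` whose
nerve is homeomorphic to a subcontinuum of `T` -/
def TLike (X : Type u) [PseudoMetricSpace X] (T : Type v) [TopologicalSpace T] : Prop :=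
  ∀ ε : ℝ, 0 < ε → ∃ (n : ℕ) (U : Fin n → Set X), (∀ i, IsOpen (U i)) ∧ (⋃ i, U i = univ) ∧
      (∀ i, Bornology.IsBounded (U i) ∧ Metric.diam (U i) < ε) ∧
      ∃ K : Set T, IsClosed K ∧ IsConnected K ∧ Nonempty (nerveReal U ≃ₜ K)

/-- `T₁` is a monotone image of `T₂` -/
def MonotoneImage (T₂ : Type u) [TopologicalSpace T₂] (T₁ : Type v) [TopologicalSpace T₁] : Prop :=
  ∃ f : T₂ → T₁, Continuous f ∧ Function.Surjective f ∧ ∀ y, IsConnected (f ⁻¹' {y})

/-- the continuum `X` is indecomposable: it is not the union of two proper subcontinua -/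
def Indecomp (X : Type u) [TopologicalSpace X] : Prop :=
  ∀ A B : Set X, IsClosed A → IsConnected A → IsClosed B → IsConnected B → A ∪ B = univ →
    A = univ ∨ B = univ

/-- every proper non-degenerate subcontinuum of `X` is an arc -/
def ArcCont (X : Type u) [TopologicalSpace X] : Prop :=
  ∀ A : Set X, IsClosed A → IsConnected A → A.Nontrivial → A ≠ univ →
    Nonempty (A ≃ₜ Icc (0 : ℝ) 1)

end Pool.Agent.DB
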